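import Mathlib
import Pool.Agent.H14.PADefs
import Pool.Agent.H14.PAProof

namespace Pool.Agent.Results.MP_71be7b_lc.IsoClasses

open H14.PA

/-- For every `k ≥ 1` the number of isomorphism classes of projective algebras generated by `k`
subsets of the plane is `2^ℵ₀` (also if the `k` generating sets are required to be distinct). -/
theorem result (k : ℕ) (hk : 1 ≤ k) :
    Equivalence (@Iso k) ∧ Equivalence (@IsoDistinct k) ∧
      numberOfIsoClasses k = Cardinal.continuum ∧
      numberOfIsoClassesDistinct k = Cardinal.continuum :=
  H14.PA.main k hk

end Pool.Agent.Results.MP_71be7b_lc.IsoClasses
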